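import Pool.Agent.H56.ER2.Targets

/-!
# Row IA2 of er2_modules: first leap case, second step (helper80)
-/

set_option autoImplicit false

namespace Pool.Agent.H80.ER2

open Pool.Agent.H48.ER Pool.Agent.H52.ER2 Pool.Agent.H66.ER2 Pool.Agent.H56.ER2

/-- a part of a path in function form -/
theorem sub_ip {V : Type} {G : SimpleGraph V} {n : ℕ} {g : ℕ → V} (h : PF G n g) {i j : ℕ}
    (hij : i ≤ j) (hj : j ≤ n) : IP G (j - i) (g i) (g j) (seg g i j) := by
  refine ⟨fun k => g (i + k), by simp, ?_, ?_, ?_, ?_⟩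
  · show g (i + (j - i)) = g j
    congr 1; omega
  · intro a b ha hb e
    have := h.inj _ _ (by omega) (by omega) e
    omega
  · intro a b ha hb
    show G.Adj (g (i + a)) (g (i + b)) ↔ _
    rw [h.adj _ _ (by omega) (by omega)]
    omega
  · ext v; constructor
    · rintro ⟨k, h1, h2, rfl⟩
      exact ⟨k - i, by omega, by show g (i + (k - i)) = g k; congr 1; omega⟩
    · rintro ⟨k, h1, rfl⟩
      exact ⟨i + k, by omega, by omega, rfl⟩

/-- the last index with a property -/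
theorem exists_last (P : ℕ → Prop) (a N : ℕ) (haN : a ≤ N) (ha : P a) :
    ∃ r, a ≤ r ∧ r ≤ N ∧ P r ∧ ∀ l, r < l → l ≤ N → ¬ P l := by
  classical
  exact ⟨Nat.findGreatest P N, Nat.le_findGreatest haN ha, Nat.findGreatest_le N,
    Nat.findGreatest_spec haN ha, fun l h1 h2 => Nat.findGreatest_is_greatest h1 h2⟩

/-- Row IA2. -/
theorem pf_IA2 (hPPR : T_PPR) (hCNI : T_CNI) : T_IA2 := by
  intro V G v n z q y x j k hS hF hA hyp hj
  have h4 := hF.four
  have hj1 := hA.j1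
  have hpx := hA.px
  have hpz := hS.so.pf
  -- members
  have hvx : ∀ l, 1 ≤ l → l ≤ j → ¬ G.Adj v (x l) := by
    intro l h1 h2 hv
    have hm : x l ∈ seg y 1 1 ∪ seg x 1 j := Or.inr ⟨l, h1, h2, rfl⟩
    exact hA.dis 1 le_rfl l (by omega) (((hyp _ hm).1).1 hv).symm
  have hvy1 : G.Adj v (y 1) := ((hyp _ (Or.inl ⟨1, le_rfl, le_rfl, rfl⟩)).1).2 rfl
  have hz1x1 : G.Adj (z 1) (x 1) := ((hyp _ (Or.inr ⟨1, le_rfl, hj1, rfl⟩)).2).2 rfl
  have hb := hA.b
  have hxy := hA.xy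
  have hvb : G.Adj v (y 2) := hb.1
  have hbz : G.Adj (y 2) (z (n - 1)) := hb.2.1
  have hWz : ∀ l, 1 ≤ l → l ≤ n - 1 → z l ∈ Wz n z := fun l h1 h2 => ⟨l, by omega, by omega, rfl⟩
  have hvz : ∀ l, 1 ≤ l → l ≤ n - 1 → z l ≠ v ∧ ¬ G.Adj v (z l) := fun l h1 h2 =>
    hF.vw _ (hWz l h1 h2)
  have hty : Ty0 G n z (y 1) := hA.ty 1 le_rfl (by norm_num) hvy1
  -- the indices `r`, `f`
  obtain ⟨r, hr1, hrn, ⟨l0, hl01, hl0j, hl0a⟩, hrmax⟩ := exists_last
    (fun r => ∃ l, 1 ≤ l ∧ l ≤ j ∧ G.Adj (z r) (x l)) 1 (n - 1) (by omega)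
    ⟨1, le_rfl, hj1, hz1x1⟩
  obtain ⟨f, hf1, hfj, hfa, hfmax⟩ := exists_last (fun l => G.Adj (z r) (x l)) l0 j hl0j hl0a
  have hf0 : 1 ≤ f := by omega
  -- the path
  have hP1 : IP G (j - f) (x j) (x f) (seg x f j) := (sub_ip hpx hfj (by omega)).rev
  have hP2 : IP G (n - 1 - r) (z r) (z (n - 1)) (seg z r (n - 1)) := sub_ip hpz hrn (by omega)
  have hdis : Disjoint (seg x f j) (seg z r (n - 1)) := by
    rw [Set.disjoint_left]
    rintro w ⟨l, h1, h2, rfl⟩ ⟨e, h3, h4', h5⟩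
    by_cases he : e = n - 1
    · rw [he] at h5
      have h6 : G.Adj (x q) (x l) := by rw [hxy, ← h5]; exact hbz
      rw [hpx.adj _ _ le_rfl (by omega)] at h6
      omega
    · refine hrmax (e + 1) (by omega) (by omega) ⟨l, by omega, h2, ?_⟩
      rw [← h5, hpz.adj _ _ (by omega) (by omega)]
      omega
  have hxe : XE G (seg x f j) (seg z r (n - 1)) (x f) (z r) := by
    rintro _ ⟨l, h1, h2, rfl⟩ _ ⟨e, h3, h4', rfl⟩
    constructor
    · intro h
      have he : e = r := by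
        by_contra hne
        exact hrmax e (by omega) h4' ⟨l, by omega, h2, h.symm⟩
      rw [he] at h
      have hl : l = f := by
        by_contra hne
        exact hfmax l (by omega) h2 h.symm
      rw [he, hl]
      exact ⟨rfl, rfl⟩
    · rintro ⟨h5, h6⟩
      rw [h5, h6]
      exact hfa.symm
  have hR := hP1.append hP2 hdis hxe
  -- memberships in `R`
  have hRc : ∀ w ∈ seg x f j ∪ seg z r (n - 1), (∃ l, f ≤ l ∧ l ≤ j ∧ w = x l) ∨
      ∃ e, r ≤ e ∧ e ≤ n - 1 ∧ w = z e := by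
    rintro w (⟨l, h1, h2, rfl⟩ | ⟨e, h1, h2, rfl⟩)
    · exact Or.inl ⟨l, h1, h2, rfl⟩
    · exact Or.inr ⟨e, h1, h2, rfl⟩
  have hlast : z (n - 1) ∉ seg x f j := fun h =>
    Set.disjoint_left.1 hdis h ⟨n - 1, hrn, le_rfl, rfl⟩
  have hfirst : ∀ e, r ≤ e → e ≤ n - 1 → z e ≠ x j := fun e h1 h2 h3 =>
    Set.disjoint_left.1 hdis ⟨j, hfj, le_rfl, rfl⟩ ⟨e, h1, h2, h3⟩
  have hlo : ∀ l, l < j → ¬ G.Adj (y 1) (x l) := hA.lo
  have hcj : G.Adj (y 1) (x j) := hA.cj
  have hxq : ∀ l, l ≤ j → ¬ G.Adj (y 2) (x l) := by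
    intro l h1 h2
    rw [← hxy, hpx.adj _ _ le_rfl (by omega)] at h2
    omega
  obtain ⟨a, b, m, P, hP, ha0, -⟩ := hPPR V G v (y 1) (y 2) (x j) (z (n - 1))
    (j - f + (n - 1 - r) + 1) (seg x f j ∪ seg z r (n - 1)) (seg x 0 (f - 1)) hS.cls.noh hR
    (by omega)
    (by
      intro h
      rcases hRc _ h with ⟨l, h1, h2, h3⟩ | ⟨e, h1, h2, h3⟩
      · exact hA.dis 1 le_rfl l (by omega) h3
      · exact (hvz e (by omega) h2).2 (h3 ▸ hvy1))
    (by
      intro h
      rcases hRc _ h with ⟨l, h1, h2, h3⟩ | ⟨e, h1, h2, h3⟩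
      · rw [← hxy] at h3
        have := hpx.inj _ _ le_rfl (by omega) h3
        omega
      · exact (hvz e (by omega) h2).2 (h3 ▸ hvb))
    (by
      rw [hA.py.adj _ _ (by norm_num) le_rfl]
      omega)
    (by
      intro w hw
      rcases hRc _ hw with ⟨l, h1, h2, rfl⟩ | ⟨e, h1, h2, rfl⟩
      · constructor
        · intro h
          have : l = j := by
            by_contra hne
            exact hlo l (by omega) h
          rw [this]
        · intro h
          rw [h]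
          exact hcj
      · constructor
        · intro h
          exact absurd h (hty _ (hWz e (by omega) h2))
        · intro h
          exact absurd h (hfirst e h1 h2))
    (by
      intro w hw
      rcases hRc _ hw with ⟨l, h1, h2, rfl⟩ | ⟨e, h1, h2, rfl⟩
      · constructor
        · intro h
          exact absurd h (hxq l h2)
        · intro h
          exact absurd ⟨l, h1, h2, h⟩ hlast
      · constructor
        · intro h
          by_cases he : e = n - 1
          · rw [he]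
          · exact absurd h (hb.2.2 e (by omega) (by omega))
        · intro h
          rw [h]
          exact hbz)
    (by
      intro h
      rcases hRc _ h with ⟨l, h1, h2, h3⟩ | ⟨e, h1, h2, h3⟩
      · exact hA.vx l (by omega) h3.symm
      · exact (hvz e (by omega) h2).1 h3.symm)
    hvy1 hvb
    (by
      intro w hw
      rcases hRc _ hw with ⟨l, h1, h2, rfl⟩ | ⟨e, h1, h2, rfl⟩
      · exact hvx l (by omega) h2
      · exact (hvz e (by omega) h2).2)
    (hCNI V G _ _ _ _ (sub_ip hpx (Nat.zero_le (f - 1)) (by omega)))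
    (by
      rintro ⟨l, -, h2, h3⟩
      exact hA.vx l (by omega) h3)
    (by
      rintro ⟨l, -, h2, h3⟩
      exact hA.dis 1 le_rfl l (by omega) h3.symm)
    (by
      rintro ⟨l, -, h2, h3⟩
      rw [← hxy] at h3
      have := hpx.inj _ _ (by omega) le_rfl h3
      omega)
    (by
      rintro w ⟨l, -, h2, rfl⟩
      exact ⟨fun h => hlo l (by omega) h.symm, fun h => hxq l (by omega) h.symm⟩)
    ⟨x 0, ⟨0, le_rfl, Nat.zero_le _, rfl⟩, hA.ax.1⟩
    ⟨x (f - 1), ⟨f - 1, Nat.zero_le _, le_rfl, rfl⟩, Or.inr ⟨x f, Or.inl ⟨f, le_rfl, hfj, rfl⟩,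
      by rw [hpx.adj _ _ (by omega) (by omega)]; omega⟩⟩
  exact (hS.nco a b m P hP 0).1 ha0.symm

end Pool.Agent.H80.ER2
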